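import Pool.Agent.Helper51.REC.Goals2
import Pool.Agent.Helper32.RD.VAL

/-!
# Project REC (MP_fc6b1e_nt), packet REC-D_RHO: the homomorphism `ρ_x`
-/

set_option autoImplicit false

namespace Pool.Agent.Helper32.REC

open NumberField Module IsDedekindDomain Pool.Agent.Helper51.RP Pool.Agent.Helper42.PP
open Pool.Agent.Helper51.REC

section abs

variable {p : ℕ} [Fact p.Prime] {A P : Type} [CommGroup A]

/-- The abstract situation: `n W a` is the valuation modulo `p`, `k W x` the symbol, `out` the set of the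
primes outside `S`, `U` the `S`-units, `Lo` the group `LocS`, `l₁, l₂` the brackets with `c₁, c₂`. -/
structure Abs (out : Set P) (n k : P → A → ZMod p) (U Lo : Subgroup A) (c₁ c₂ : A)
    (l₁ l₂ : A → ZMod p) : Prop where
  hn : ∀ W a b, n W (a * b) = n W a + n W b
  hU : ∀ u ∈ U, ∀ W ∈ out, n W u = 0
  hc₁ : c₁ ∈ U
  hc₂ : c₂ ∈ U
  h1 : ∀ a b, l₁ (a * b) = l₁ a + l₁ b
  h2 : ∀ a b, l₂ (a * b) = l₂ a + l₂ b
  u1 : ∀ u ∈ U, l₁ u = 0
  u2 : ∀ u ∈ U, l₂ u = 0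
  g1 : ∀ g ∈ Lo, l₁ g = 0
  g2 : ∀ g ∈ Lo, l₂ g = 0
  v1 : ∀ a W, W ∈ out → (∀ W' ∈ out, W' ≠ W → n W' a = 0) → l₁ a = n W a * k W c₁
  v2 : ∀ a W, W ∈ out → (∀ W' ∈ out, W' ≠ W → n W' a = 0) → l₂ a = n W a * k W c₂
  hA : ∀ g ∈ Lo, ∀ T : Finset P, (∀ W, W ∈ T ↔ W ∈ out ∧ n W g ≠ 0) → T.Nonempty →
    ∃ m : P → ZMod p, (∃ W ∈ T, m W ≠ 0) ∧ ∀ x ∈ U, ∑ W ∈ T, m W * k W x = 0
  hL : ∀ a, (¬ ∃ u ∈ U, a * u ∈ Lo) → ∃ g ∈ Lo, ∃ W, W ∈ out ∧ n W (a * g) ≠ 0 ∧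
    ∀ W' ∈ out, W' ≠ W → n W' (a * g) = 0

/-- `a` has a nontrivial valuation only at `W`. -/
def OnlyA (out : Set P) (n : P → A → ZMod p) (a : A) (W : P) : Prop :=
  W ∈ out ∧ n W a ≠ 0 ∧ ∀ W' ∈ out, W' ≠ W → n W' a = 0

variable {out : Set P} {n k : P → A → ZMod p} {U Lo : Subgroup A} {c₁ c₂ : A} {l₁ l₂ : A → ZMod p}

theorem rel (h : Abs out n k U Lo c₁ c₂ l₁ l₂) {g : A} (hg : g ∈ Lo) (T : Finset P)
    (hT : ∀ W, W ∈ T ↔ W ∈ out ∧ n W g ≠ 0) (hne : T.Nonempty)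
    (hr : ∀ m : P → ZMod p, ∑ W ∈ T, m W * k W c₁ = 0 → ∑ W ∈ T, m W * k W c₂ = 0 →
      ∃ t, ∀ W ∈ T, m W = t * n W g) {x : A} (hx : x ∈ U) :
    ∑ W ∈ T, n W g * k W x = 0 := by
  obtain ⟨m, ⟨W₀, hW₀, hm₀⟩, hm⟩ := h.hA g hg T hT hne
  obtain ⟨t, ht⟩ := hr m (hm c₁ h.hc₁) (hm c₂ h.hc₂)
  have ht0 : t ≠ 0 := by
    rintro rfl
    apply hm₀
    rw [ht W₀ hW₀, zero_mul]
  have h1 := hm x hx
  have h2 : ∑ W ∈ T, m W * k W x = t * ∑ W ∈ T, n W g * k W x := by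
    rw [Finset.mul_sum]
    refine Finset.sum_congr rfl fun W hW ↦ ?_
    rw [ht W hW, mul_assoc]
  rw [h2] at h1
  exact (mul_eq_zero.1 h1).resolve_left ht0

/-- Two primes. -/
theorem two (h : Abs out n k U Lo c₁ c₂ l₁ l₂) {a₁ a₂ u g : A} {W₁ W₂ : P}
    (o₁ : OnlyA out n a₁ W₁) (o₂ : OnlyA out n a₂ W₂) (hu : u ∈ U) (hg : g ∈ Lo)
    (he : a₁ = a₂ * u * g) (hl : l₁ a₁ ≠ 0 ∨ l₂ a₁ ≠ 0) {x : A} (hx : x ∈ U) :
    n W₁ a₁ * k W₁ x = n W₂ a₂ * k W₂ x := by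
  classical
  obtain ⟨w₁, n₁, z₁⟩ := o₁
  obtain ⟨w₂, n₂, z₂⟩ := o₂
  have e1 : l₁ a₁ = l₁ a₂ := by rw [he, h.h1, h.h1, h.u1 u hu, h.g1 g hg]; ring
  have e2 : l₂ a₁ = l₂ a₂ := by rw [he, h.h2, h.h2, h.u2 u hu, h.g2 g hg]; ring
  have f1 := h.v1 a₁ W₁ w₁ z₁
  have f2 := h.v2 a₁ W₁ w₁ z₁
  have f3 := h.v1 a₂ W₂ w₂ z₂
  have f4 := h.v2 a₂ W₂ w₂ z₂
  rw [e1, f3] at f1
  rw [e2, f4] at f2
  rw [e1, e2, f3, f4] at hl
  by_cases hW : W₁ = W₂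
  · subst hW
    have h5 : n W₁ a₁ = n W₁ a₂ := by
      rcases hl with hl | hl
      · have hk : k W₁ c₁ ≠ 0 := right_ne_zero_of_mul hl
        exact (mul_right_cancel₀ hk f1).symm
      · have hk : k W₁ c₂ ≠ 0 := right_ne_zero_of_mul hl
        exact (mul_right_cancel₀ hk f2).symm
    rw [h5]
  · have g1 : n W₁ g = n W₁ a₁ := by
      have := congrArg (n W₁) he
      rw [h.hn, h.hn, z₂ W₁ w₁ hW, h.hU u hu W₁ w₁] at this
      rw [this]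
      ring
    have g2 : n W₂ g = -n W₂ a₂ := by
      have := congrArg (n W₂) he
      rw [h.hn, h.hn, z₁ W₂ w₂ (Ne.symm hW), h.hU u hu W₂ w₂] at this
      linear_combination -this
    have g3 : ∀ W ∈ out, W ≠ W₁ → W ≠ W₂ → n W g = 0 := by
      intro W hWo h1 h2
      have := congrArg (n W) he
      rw [h.hn, h.hn, z₁ W hWo h1, z₂ W hWo h2, h.hU u hu W hWo] at this
      linear_combination -this
    have hT : ∀ W, W ∈ ({W₁, W₂} : Finset P) ↔ W ∈ out ∧ n W g ≠ 0 := by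
      intro W
      rw [Finset.mem_insert, Finset.mem_singleton]
      constructor
      · rintro (rfl | rfl)
        · exact ⟨w₁, by rw [g1]; exact n₁⟩
        · exact ⟨w₂, by rw [g2]; exact neg_ne_zero.2 n₂⟩
      · rintro ⟨h1, h2⟩
        by_contra hc
        push Not at hc
        exact h2 (g3 W h1 hc.1 hc.2)
    have key := rel h hg {W₁, W₂} hT ⟨W₁, by simp⟩ ?_ hx
    · rw [Finset.sum_pair hW, g1, g2] at key
      linear_combination key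
    · intro m m1 m2
      rw [Finset.sum_pair hW] at m1 m2
      refine ⟨m W₁ / n W₁ a₁, ?_⟩
      intro W hWT
      rw [Finset.mem_insert, Finset.mem_singleton] at hWT
      rcases hWT with rfl | rfl
      · rw [g1, div_mul_cancel₀ _ n₁]
      · rw [g2]
        rcases hl with hl | hl
        · have hk2 : k W c₁ ≠ 0 := right_ne_zero_of_mul hl
          have hk1 : k W₁ c₁ ≠ 0 := by
            rw [f1] at hl
            exact right_ne_zero_of_mul hl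
          field_simp
          apply mul_right_cancel₀ hk2
          linear_combination n W₁ a₁ * m1 + m W₁ * f1
        · have hk2 : k W c₂ ≠ 0 := right_ne_zero_of_mul hl
          field_simp
          apply mul_right_cancel₀ hk2
          linear_combination n W₁ a₁ * m2 + m W₁ * f2

/-- Three primes. -/
theorem three (h : Abs out n k U Lo c₁ c₂ l₁ l₂) {a₁ a₂ a₃ g : A} {W₁ W₂ W₃ : P}
    (o₁ : OnlyA out n a₁ W₁) (o₂ : OnlyA out n a₂ W₂) (o₃ : OnlyA out n a₃ W₃) (hg : g ∈ Lo)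
    (he : a₁ * a₂ = a₃ * g) (hl : l₁ a₁ * l₂ a₂ - l₂ a₁ * l₁ a₂ ≠ 0) {x : A} (hx : x ∈ U) :
    n W₃ a₃ * k W₃ x = n W₁ a₁ * k W₁ x + n W₂ a₂ * k W₂ x := by
  classical
  obtain ⟨w₁, n₁, z₁⟩ := o₁
  obtain ⟨w₂, n₂, z₂⟩ := o₂
  obtain ⟨w₃, n₃, z₃⟩ := o₃
  have e1 : l₁ a₃ = l₁ a₁ + l₁ a₂ := by
    have := congrArg l₁ he
    rw [h.h1, h.h1, h.g1 g hg] at this
    linear_combination -this
  have e2 : l₂ a₃ = l₂ a₁ + l₂ a₂ := by
    have := congrArg l₂ he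
    rw [h.h2, h.h2, h.g2 g hg] at this
    linear_combination -this
  rw [h.v1 a₃ W₃ w₃ z₃, h.v1 a₁ W₁ w₁ z₁, h.v1 a₂ W₂ w₂ z₂] at e1
  rw [h.v2 a₃ W₃ w₃ z₃, h.v2 a₁ W₁ w₁ z₁, h.v2 a₂ W₂ w₂ z₂] at e2
  rw [h.v1 a₁ W₁ w₁ z₁, h.v1 a₂ W₂ w₂ z₂, h.v2 a₁ W₁ w₁ z₁, h.v2 a₂ W₂ w₂ z₂] at hl
  have hD : k W₁ c₁ * k W₂ c₂ - k W₁ c₂ * k W₂ c₁ ≠ 0 := by
    intro hc
    apply hl
    linear_combination n W₁ a₁ * n W₂ a₂ * hc
  have h12 : W₁ ≠ W₂ := by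
    rintro rfl
    apply hD
    ring
  have h13 : W₁ ≠ W₃ := by
    rintro rfl
    apply hl
    linear_combination (n W₁ a₁ * k W₁ c₂) * e1 - (n W₁ a₁ * k W₁ c₁) * e2
  have h23 : W₂ ≠ W₃ := by
    rintro rfl
    apply hl
    linear_combination (n W₂ a₂ * k W₂ c₁) * e2 - (n W₂ a₂ * k W₂ c₂) * e1
  have hsum : ∀ W, n W g = n W a₁ + n W a₂ - n W a₃ := by
    intro W
    have := congrArg (n W) he
    rw [h.hn, h.hn] at this
    linear_combination -this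
  have g1 : n W₁ g = n W₁ a₁ := by
    rw [hsum, z₂ W₁ w₁ h12, z₃ W₁ w₁ h13]; ring
  have g2 : n W₂ g = n W₂ a₂ := by
    rw [hsum, z₁ W₂ w₂ h12.symm, z₃ W₂ w₂ h23]; ring
  have g3 : n W₃ g = -n W₃ a₃ := by
    rw [hsum, z₁ W₃ w₃ h13.symm, z₂ W₃ w₃ h23.symm]; ring
  have hT : ∀ W, W ∈ ({W₁, W₂, W₃} : Finset P) ↔ W ∈ out ∧ n W g ≠ 0 := by
    intro W
    rw [Finset.mem_insert, Finset.mem_insert, Finset.mem_singleton]
    constructor
    · rintro (rfl | rfl | rfl)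
      · exact ⟨w₁, by rw [g1]; exact n₁⟩
      · exact ⟨w₂, by rw [g2]; exact n₂⟩
      · exact ⟨w₃, by rw [g3]; exact neg_ne_zero.2 n₃⟩
    · rintro ⟨h1, h2⟩
      by_contra hc
      push Not at hc
      apply h2
      rw [hsum, z₁ W h1 hc.1, z₂ W h1 hc.2.1, z₃ W h1 hc.2.2]
      ring
  have hexp : ∀ F : P → ZMod p, ∑ W ∈ ({W₁, W₂, W₃} : Finset P), F W = F W₁ + (F W₂ + F W₃) := by
    intro F
    rw [Finset.sum_insert (by simp [h12, h13]), Finset.sum_pair h23]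
  have key := rel h hg {W₁, W₂, W₃} hT ⟨W₁, by simp⟩ ?_ hx
  · rw [hexp, g1, g2, g3] at key
    linear_combination -key
  · intro m m1 m2
    rw [hexp] at m1 m2
    have r1 : (n W₃ a₃ * m W₁ + m W₃ * n W₁ a₁) * k W₁ c₁ +
        (n W₃ a₃ * m W₂ + m W₃ * n W₂ a₂) * k W₂ c₁ = 0 := by
      linear_combination n W₃ a₃ * m1 - m W₃ * e1
    have r2 : (n W₃ a₃ * m W₁ + m W₃ * n W₁ a₁) * k W₁ c₂ +
        (n W₃ a₃ * m W₂ + m W₃ * n W₂ a₂) * k W₂ c₂ = 0 := by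
      linear_combination n W₃ a₃ * m2 - m W₃ * e2
    have s1 : n W₃ a₃ * m W₁ + m W₃ * n W₁ a₁ = 0 := by
      apply (mul_eq_zero.1 (show (n W₃ a₃ * m W₁ + m W₃ * n W₁ a₁) *
        (k W₁ c₁ * k W₂ c₂ - k W₁ c₂ * k W₂ c₁) = 0 from ?_)).resolve_right hD
      linear_combination k W₂ c₂ * r1 - k W₂ c₁ * r2
    have s2 : n W₃ a₃ * m W₂ + m W₃ * n W₂ a₂ = 0 := by
      apply (mul_eq_zero.1 (show (n W₃ a₃ * m W₂ + m W₃ * n W₂ a₂) *
        (k W₁ c₁ * k W₂ c₂ - k W₁ c₂ * k W₂ c₁) = 0 from ?_)).resolve_right hD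
      linear_combination k W₁ c₁ * r2 - k W₁ c₂ * r1
    refine ⟨-(m W₃ / n W₃ a₃), ?_⟩
    intro W hWT
    rw [Finset.mem_insert, Finset.mem_insert, Finset.mem_singleton] at hWT
    rcases hWT with rfl | rfl | rfl
    · rw [g1]
      field_simp
      linear_combination s1
    · rw [g2]
      field_simp
      linear_combination s2
    · rw [g3]
      field_simp

theorem abs_rho (hD : D_LIN) (h : Abs out n k U Lo c₁ c₂ l₁ l₂)
    (hs : ∀ a b : ZMod p, ∃ γ, l₁ γ = a ∧ l₂ γ = b) {x : A} (hx : x ∈ U) :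
    ∃ ρ : A → ZMod p, (∀ a b, ρ (a * b) = ρ a + ρ b) ∧ (∀ u ∈ U, ρ u = 0) ∧
      (∀ g ∈ Lo, ρ g = 0) ∧ ∀ a W, OnlyA out n a W → (k W c₁ ≠ 0 ∨ k W c₂ ≠ 0) →
        ρ a = n W a * k W x := by
  classical
  -- the normal form
  have hnf : ∀ a, (l₁ a ≠ 0 ∨ l₂ a ≠ 0) → ∃ g W, g ∈ Lo ∧ OnlyA out n (a * g) W := by
    intro a ha
    obtain ⟨g, hg, W, hW⟩ := h.hL a (by
      rintro ⟨u, hu, hau⟩
      have e1 := h.g1 _ hau
      have e2 := h.g2 _ hau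
      rw [h.h1, h.u1 u hu, add_zero] at e1
      rw [h.h2, h.u2 u hu, add_zero] at e2
      rcases ha with ha | ha
      · exact ha e1
      · exact ha e2)
    exact ⟨g, W, hg, hW⟩
  haveI hneP : Nonempty P := by
    obtain ⟨α, hα1, -⟩ := hs 1 0
    obtain ⟨g, W, -⟩ := hnf α (Or.inl (by rw [hα1]; exact one_ne_zero))
    exact ⟨W⟩
  choose! gf Wf hgf using hnf
  let f : A → ZMod p := fun a ↦ if l₁ a ≠ 0 ∨ l₂ a ≠ 0 then n (Wf a) (a * gf a) * k (Wf a) x else 0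
  have hlg : ∀ a g, g ∈ Lo → l₁ (a * g) = l₁ a ∧ l₂ (a * g) = l₂ a := by
    intro a g hg
    rw [h.h1, h.h2, h.g1 g hg, h.g2 g hg, add_zero, add_zero]
    exact ⟨rfl, rfl⟩
  -- the value of `f`
  have hf : ∀ a u g W, (l₁ a ≠ 0 ∨ l₂ a ≠ 0) → u ∈ U → g ∈ Lo → OnlyA out n (a * u * g) W →
      f a = n W (a * u * g) * k W x := by
    intro a u g W ha hu hg hW
    obtain ⟨g1, g2⟩ := hgf a ha
    show (if l₁ a ≠ 0 ∨ l₂ a ≠ 0 then n (Wf a) (a * gf a) * k (Wf a) x else 0) = _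
    rw [if_pos ha]
    refine two h g2 hW (Subgroup.inv_mem _ hu) (Subgroup.mul_mem _ (Subgroup.inv_mem _ hg) g1)
      ?_ ?_ hx
    · rw [mul_assoc a u g, mul_assoc, mul_assoc]
      congr 1
      rw [mul_comm u g, mul_assoc, mul_inv_cancel_left, mul_inv_cancel_left]
    · rw [(hlg a _ g1).1, (hlg a _ g1).2]
      exact ha
  have hfadd : ∀ a b, l₁ a * l₂ b - l₂ a * l₁ b ≠ 0 → f (a * b) = f a + f b := by
    intro a b hab
    have ha : l₁ a ≠ 0 ∨ l₂ a ≠ 0 := by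
      by_contra hc
      push Not at hc
      apply hab
      rw [hc.1, hc.2]
      ring
    have hb : l₁ b ≠ 0 ∨ l₂ b ≠ 0 := by
      by_contra hc
      push Not at hc
      apply hab
      rw [hc.1, hc.2]
      ring
    have hc : l₁ (a * b) ≠ 0 ∨ l₂ (a * b) ≠ 0 := by
      by_contra hc
      push Not at hc
      rw [h.h1, h.h2] at hc
      apply hab
      linear_combination (-l₂ a) * hc.1 + l₁ a * hc.2
    obtain ⟨ga1, ga2⟩ := hgf a ha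
    obtain ⟨gb1, gb2⟩ := hgf b hb
    obtain ⟨gc1, gc2⟩ := hgf (a * b) hc
    have key := three h ga2 gb2 gc2 (g := gf a * gf b * (gf (a * b))⁻¹)
      (Subgroup.mul_mem _ (Subgroup.mul_mem _ ga1 gb1) (Subgroup.inv_mem _ gc1))
      (by
        rw [mul_comm (gf a * gf b), mul_assoc (a * b), mul_inv_cancel_left, mul_mul_mul_comm])
      (by
        rw [(hlg a _ ga1).1, (hlg a _ ga1).2, (hlg b _ gb1).1, (hlg b _ gb1).2]
        exact hab) hx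
    show (if l₁ (a * b) ≠ 0 ∨ l₂ (a * b) ≠ 0 then _ else _) =
      (if l₁ a ≠ 0 ∨ l₂ a ≠ 0 then _ else _) + (if l₁ b ≠ 0 ∨ l₂ b ≠ 0 then _ else _)
    rw [if_pos ha, if_pos hb, if_pos hc]
    exact key
  obtain ⟨ρ, hρ, hρf⟩ := hD p A (fun a ↦ (l₁ a, l₂ a)) f
    (fun a b ↦ by
      show (l₁ (a * b), l₂ (a * b)) = _
      rw [h.h1, h.h2]
      rfl)
    (fun c ↦ by
      obtain ⟨γ, h1, h2⟩ := hs c.1 c.2
      exact ⟨γ, Prod.ext h1 h2⟩)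
    (fun a b hab ↦ hfadd a b hab)
  have hne : ∀ a, (l₁ a ≠ 0 ∨ l₂ a ≠ 0) → (fun a ↦ (l₁ a, l₂ a)) a ≠ 0 := by
    intro a ha hc
    have hc' : (l₁ a, l₂ a) = ((0 : ZMod p), (0 : ZMod p)) := hc
    obtain ⟨k1, k2⟩ := Prod.mk.inj hc'
    rcases ha with ha | ha
    · exact ha k1
    · exact ha k2
  obtain ⟨α, hα1, -⟩ := hs 1 0
  have hα : l₁ α ≠ 0 ∨ l₂ α ≠ 0 := Or.inl (by rw [hα1]; exact one_ne_zero)
  obtain ⟨gα1, gα2⟩ := hgf α hα
  have hU0 : ∀ u ∈ U, ρ u = 0 := by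
    intro u hu
    have hlu : l₁ (α * u) ≠ 0 ∨ l₂ (α * u) ≠ 0 := by
      rw [h.h1, h.h2, h.u1 u hu, h.u2 u hu, add_zero, add_zero]
      exact hα
    have e0 : α * u * u⁻¹ * gf α = α * gf α := by rw [mul_inv_cancel_right]
    have e1 : f (α * u) = f α := by
      rw [hf (α * u) u⁻¹ (gf α) (Wf α) hlu (Subgroup.inv_mem _ hu) gα1 (by rw [e0]; exact gα2), e0]
      show _ = (if l₁ α ≠ 0 ∨ l₂ α ≠ 0 then n (Wf α) (α * gf α) * k (Wf α) x else 0)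
      rw [if_pos hα]
    have e2 := hρ α u
    rw [hρf _ (hne _ hlu), hρf _ (hne _ hα), e1] at e2
    linear_combination -e2
  have hG0 : ∀ g ∈ Lo, ρ g = 0 := by
    intro g hg
    have hlu : l₁ (α * g) ≠ 0 ∨ l₂ (α * g) ≠ 0 := by
      rw [(hlg α g hg).1, (hlg α g hg).2]
      exact hα
    have e0 : α * g * 1 * (g⁻¹ * gf α) = α * gf α := by
      rw [mul_one, mul_assoc, mul_inv_cancel_left]
    have e1 : f (α * g) = f α := by
      rw [hf (α * g) 1 (g⁻¹ * gf α) (Wf α) hlu (Subgroup.one_mem _)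
        (Subgroup.mul_mem _ (Subgroup.inv_mem _ hg) gα1) (by rw [e0]; exact gα2), e0]
      show _ = (if l₁ α ≠ 0 ∨ l₂ α ≠ 0 then n (Wf α) (α * gf α) * k (Wf α) x else 0)
      rw [if_pos hα]
    have e2 := hρ α g
    rw [hρf _ (hne _ hlu), hρf _ (hne _ hα), e1] at e2
    linear_combination -e2
  refine ⟨ρ, hρ, hU0, hG0, ?_⟩
  intro a W hW hk
  have ha : l₁ a ≠ 0 ∨ l₂ a ≠ 0 := by
    rw [h.v1 a W hW.1 hW.2.2, h.v2 a W hW.1 hW.2.2]
    rcases hk with hk | hk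
    · exact Or.inl (mul_ne_zero hW.2.1 hk)
    · exact Or.inr (mul_ne_zero hW.2.1 hk)
  have e0 : a * 1 * 1 = a := by rw [mul_one, mul_one]
  rw [hρf a (hne a ha), hf a 1 1 W ha (Subgroup.one_mem _) (Subgroup.one_mem _)
    (by rw [e0]; exact hW), e0]

end abs

/-- `LocS` as a subgroup. -/
def locG (h2 : K_LOC) (p : ℕ) [Fact p.Prime] (F : Type) [Field F] [NumberField F]
    (S : Set (HeightOneSpectrum (𝓞 F))) (hS : S.Finite) : Subgroup Fˣ where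
  carrier := {x | LocS p S x}
  mul_mem' := fun {a b} ha hb ↦ (h2 p F S hS).1 a b ha hb
  one_mem' := by
    have := (h2 p F S hS).2.2.1 1
    rw [one_pow] at this
    exact this
  inv_mem' := fun {a} ha ↦ (h2 p F S hS).2.1 a ha

theorem d_rho (h1 : K_BAS) (h2 : K_LOC) (h3 : K_BRK) (h4 : H_A) (h5 : L_LIN) (h6 : D_LIN) :
    Pool.Agent.Helper51.REC.D_RHO := by
  intro p _ F _ _ ε S hSit c₁ c₂ hc₁ hc₂ L₁ L₂ hsurj x hx
  obtain ⟨b1, b2, -, b4, b5⟩ := h3 p F ε S hSit.prim hSit.abp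
  have hz : ∀ a : ℤ, ((a : ℤ) : ZMod p) = 0 ↔ (p : ℤ) ∣ a := fun a ↦
    ZMod.intCast_zmod_eq_zero_iff_dvd a p
  have hord : ∀ u ∈ S.unit F, ∀ W ∉ S, ordv W (u : F) = 0 := by
    intro u hu W hW
    exact Pool.Agent.Helper32.RDV.ordv_eq_zero W (Set.unit_valuation_eq_one S F ⟨u, hu⟩ hW)
  have hval : ∀ (c a : Fˣ) (W : HeightOneSpectrum (𝓞 F)), W ∉ S →
      (∀ W' ∉ S, W' ≠ W → ((ordv W' (a : F) : ℤ) : ZMod p) = 0) →
      brk p ε S c a = ((ordv W (a : F) : ℤ) : ZMod p) * kap p ε W c := by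
    intro c a W hW hW'
    rw [b4 c a {W} (by
      intro V hV
      rw [Finset.mem_singleton] at hV
      subst hV
      exact hW) (by
      intro V hV hnd
      rw [Finset.mem_singleton]
      by_contra hne
      exact hnd ((hz _).1 (hW' V hV hne))), Finset.sum_singleton]
  have hAbs : Abs {W : HeightOneSpectrum (𝓞 F) | W ∉ S}
      (fun W (a : Fˣ) ↦ ((ordv W (a : F) : ℤ) : ZMod p)) (fun W a ↦ kap p ε W a) (S.unit F)
      (locG h2 p F S hSit.fin) c₁ c₂ (fun a ↦ brk p ε S c₁ a) (fun a ↦ brk p ε S c₂ a) := by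
    refine
      { hn := ?_, hU := ?_, hc₁ := hc₁, hc₂ := hc₂, h1 := fun a b ↦ b1 c₁ a b,
        h2 := fun a b ↦ b1 c₂ a b, u1 := ?_, u2 := ?_, g1 := fun g hg ↦ L₁ g hg,
        g2 := fun g hg ↦ L₂ g hg, v1 := ?_, v2 := ?_, hA := ?_, hL := ?_ }
    · intro W a b
      show (((ordv W ((a * b : Fˣ) : F) : ℤ)) : ZMod p) = _
      rw [Units.val_mul, Pool.Agent.Helper32.RDV.ordv_mul W a.ne_zero b.ne_zero, Int.cast_add]
    · intro u hu W hW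
      show (((ordv W (u : F) : ℤ)) : ZMod p) = 0
      rw [hord u hu W hW, Int.cast_zero]
    · intro u hu
      exact b2 c₁ u fun W hW ↦ by rw [hord u hu W hW]; exact dvd_zero _
    · intro u hu
      exact b2 c₂ u fun W hW ↦ by rw [hord u hu W hW]; exact dvd_zero _
    · intro a W hW hW'
      exact hval c₁ a W hW hW'
    · intro a W hW hW'
      exact hval c₂ a W hW hW'
    · intro g hg T hT hne
      refine h4 p F ε S hSit g hg ?_ T ?_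
      · rintro ⟨y, rfl⟩
        obtain ⟨W, hW⟩ := hne
        have h7 := ((hT W).1 hW).2
        apply h7
        rw [hz, Units.val_pow_eq_pow_val, Pool.Agent.Helper32.RDV.ordv_pow]
        exact dvd_mul_right _ _
      · intro W
        rw [hT W]
        exact and_congr_right fun _ ↦ not_congr (hz _)
    · intro a ha
      obtain ⟨g, W, g1, g2, g3, g4⟩ := h5 p F ε S hSit a ha
      refine ⟨g, g1, W, g2, ?_, ?_⟩
      · exact fun h7 ↦ g3 ((hz _).1 h7)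
      · intro W' h7 h8
        exact (hz _).2 (g4 W' h7 h8)
  obtain ⟨ρ, r1, r2, r3, r4⟩ := abs_rho h6 hAbs hsurj hx
  refine ⟨ρ, ⟨r1, r2, r3, ?_⟩⟩
  rintro W ⟨hW, hk⟩ α ⟨-, d2, d3⟩
  have h7 := r4 α W ⟨hW, by
    show (((ordv W (α : F) : ℤ)) : ZMod p) ≠ 0
    rw [d2, Int.cast_one]
    exact one_ne_zero, fun W' h8 h9 ↦ by
    show (((ordv W' (α : F) : ℤ)) : ZMod p) = 0
    rw [d3 W' h8 h9, Int.cast_zero]⟩ hk
  rw [h7, d2, Int.cast_one, one_mul]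

end Pool.Agent.Helper32.REC
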