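import Pool.Agent.Helper51.REC.Goals3
import Pool.Agent.Helper33.REC.KBRK
import Pool.Agent.Helper32.RD.VAL

/-!
# Project REC (MP_fc6b1e_nt), packet REC-T_LIN: `[x, β]` is a weighted sum of the symbols of `β`
-/

set_option autoImplicit false

namespace Pool.Agent.Helper32.REC

open NumberField Module IsDedekindDomain Pool.Agent.Helper51.RP Pool.Agent.Helper42.PP
open Pool.Agent.Helper51.REC

section tlin

variable {p : ℕ} [Fact p.Prime] {F : Type} [Field F] [NumberField F] {ε : F}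
  {S : Set (HeightOneSpectrum (𝓞 F))}

theorem ordu_mul (W : HeightOneSpectrum (𝓞 F)) (x y : Fˣ) :
    ordv W ((x * y : Fˣ) : F) = ordv W (x : F) + ordv W (y : F) := by
  rw [Units.val_mul, Pool.Agent.Helper32.RDV.ordv_mul W x.ne_zero y.ne_zero]

theorem ordu_one (W : HeightOneSpectrum (𝓞 F)) : ordv W ((1 : Fˣ) : F) = 0 := by
  apply Pool.Agent.Helper32.RDV.ordv_eq_zero
  rw [Units.val_one, map_one]

theorem ordu_inv (W : HeightOneSpectrum (𝓞 F)) (x : Fˣ) :
    ordv W ((x⁻¹ : Fˣ) : F) = -ordv W (x : F) := by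
  have h := ordu_mul W x x⁻¹
  rw [mul_inv_cancel, ordu_one] at h
  linarith

theorem ordu_pow (W : HeightOneSpectrum (𝓞 F)) (x : Fˣ) (n : ℕ) :
    ordv W ((x ^ n : Fˣ) : F) = n * ordv W (x : F) := by
  rw [Units.val_pow_eq_pow_val, Pool.Agent.Helper32.RDV.ordv_pow]

/-- Outside `S` the valuation of `p` is `1`. -/
theorem val_p (hS : Sit p F ε S) {W : HeightOneSpectrum (𝓞 F)} (hW : W ∉ S) :
    W.valuation F (p : F) = 1 := by
  by_contra hne
  exact hW (hS.abp W (lt_of_le_of_ne (Pool.Agent.Helper33.REC.val_le_one p W) hne))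

/-- Adding a prime to `S`. -/
theorem sit_insert (hS : Sit p F ε S) (v : HeightOneSpectrum (𝓞 F)) :
    Sit p F ε (S ∪ {v}) where
  prim := hS.prim
  cplx := hS.cplx
  fin := hS.fin.union (Set.finite_singleton v)
  abp := fun W hW ↦ Or.inl (hS.abp W hW)
  prin := fun n ↦ by
    obtain ⟨x, hx⟩ := hS.prin n
    exact ⟨x, fun W hW ↦ hx W fun h ↦ hW (Or.inl h)⟩

theorem brk_pow (h4 : K_BRK) (hS : Sit p F ε S) (x β : Fˣ) (n : ℕ) :
    brk p ε S x (β ^ n) = n * brk p ε S x β := by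
  obtain ⟨b1, b2, -, -, -⟩ := h4 p F ε S hS.prim hS.abp
  induction n with
  | zero =>
    rw [pow_zero, Nat.cast_zero, zero_mul]
    exact b2 x 1 fun W _ ↦ by rw [ordu_one]; exact dvd_zero _
  | succ n ih =>
    rw [pow_succ, b1, ih]
    push_cast
    ring

theorem kap_pow (h1 : K_BAS) (hS : Sit p F ε S) {v : HeightOneSpectrum (𝓞 F)} (hv : v ∉ S) (β : Fˣ)
    (hβ : (p : ℤ) ∣ ordv v (β : F)) (n : ℕ) :
    kap p ε v (β ^ n) = n * kap p ε v β := by
  obtain ⟨-, -, -, a4, a5, -, -⟩ := h1 p F ε hS.prim v (val_p hS hv)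
  induction n with
  | zero =>
    rw [pow_zero, Nat.cast_zero, zero_mul]
    have := a5 1
    rwa [one_pow] at this
  | succ n ih =>
    rw [pow_succ, a4 _ _ (by rw [ordu_pow]; exact hβ.mul_left _) hβ, ih]
    push_cast
    ring

theorem locS_pow (h3 : K_LOC) (hS : Sit p F ε S) {β : Fˣ} (hβ : LocS p S β) (n : ℕ) :
    LocS p S (β ^ n) := by
  obtain ⟨l1, -, l3, -, -⟩ := h3 p F S hS.fin
  induction n with
  | zero =>
    have := l3 1
    rw [pow_zero]
    rwa [one_pow] at this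
  | succ n ih =>
    rw [pow_succ]
    exact l1 _ _ ih hβ

/-- The constant of one prime. -/
theorem one_prime (h1 : K_BAS) (h2 : K_APP) (h3 : K_LOC) (h4 : K_BRK) (h5 : R_ONE)
    (hS : Sit p F ε S) {v : HeightOneSpectrum (𝓞 F)} (hv : v ∉ S) {xv : Fˣ}
    (hx : ∀ W ∉ S, W ≠ v → ordv W (xv : F) = 0) :
    ∃ c : ZMod p, ∀ β : Fˣ, LocS p S β → (p : ℤ) ∣ ordv v (β : F) →
      brk p ε S xv β = c * kap p ε v β := by
  classical
  obtain ⟨b1, b2, -, -, -⟩ := h4 p F ε S hS.prim hS.abp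
  obtain ⟨-, -, -, a4, a5, a6, a7⟩ := h1 p F ε hS.prim v (val_p hS hv)
  obtain ⟨l1, -, l3, -, l5⟩ := h3 p F S hS.fin
  have hunit : xv ∈ (S ∪ {v}).unit F := by
    intro W hW
    have hW1 : W ∉ S := fun h ↦ hW (Or.inl h)
    have hW2 : W ≠ v := fun h ↦ hW (Or.inr h)
    exact Pool.Agent.Helper32.RDV.val_one_of_ordv W xv.ne_zero (hx W hW1 hW2)
  -- symbol zero
  have hzero : ∀ β : Fˣ, LocS p S β → (p : ℤ) ∣ ordv v (β : F) → kap p ε v β = 0 →
      brk p ε S xv β = 0 := by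
    intro β hβ hd hk
    have hlp : LocPow p v (β : F) := (a6 β hd).1 hk
    have hl : LocS p (S ∪ {v}) β := l5 {v} (Set.finite_singleton v) (by
      intro W hW
      rw [Set.mem_singleton_iff] at hW
      subst hW
      exact val_p hS hv) β hβ (by
      intro W hW
      rw [Set.mem_singleton_iff] at hW
      subst hW
      exact hlp)
    have h6 := h5 p F ε (S ∪ {v}) (sit_insert hS v) xv hunit β hl
    rw [← h6]
    unfold brk
    refine finsum_congr fun W ↦ ?_
    by_cases hW : W ∈ S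
    · rw [if_pos hW, if_pos (show W ∈ S ∪ {v} from Or.inl hW)]
    · by_cases hWv : W = v
      · subst hWv
        rw [if_neg hW, if_pos (show W ∈ S ∪ {W} from Or.inr rfl),
          (ZMod.intCast_zmod_eq_zero_iff_dvd _ p).2 hd, zero_mul]
      · rw [if_neg hW, if_neg (show W ∉ S ∪ {v} by
          rintro (h | h)
          · exact hW h
          · exact hWv h)]
  -- an element with symbol one
  obtain ⟨x0, hx0, hk0⟩ := a7 1
  obtain ⟨β₁, hβ₁⟩ := h2 p F (S ∪ {v}) (sit_insert hS v).fin (fun W ↦ if W = v then x0 else 1) 3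
  have hL₁ : LocS p S β₁ := by
    refine ⟨1, fun W hW ↦ ?_⟩
    have hWv : W ≠ v := fun h ↦ hv (h ▸ hW)
    have h6 := hβ₁ W (Or.inl hW)
    rw [if_neg hWv, inv_one, Units.val_one, mul_one] at h6
    rw [Units.val_one, one_pow, mul_one]
    exact h6
  have hv₁ : v.valuation F ((β₁ : F) * ((x0⁻¹ : Fˣ) : F) - 1) < 1 := by
    have h6 := (hβ₁ v (Or.inr rfl)).1
    rwa [if_pos rfl] at h6
  have hq : v.valuation F ((β₁ * x0⁻¹ : Fˣ) : F) = 1 := by
    rw [Units.val_mul]
    exact Pool.Agent.Helper32.RDV.val_one_of_close v hv₁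
  have hoq : ordv v ((β₁ * x0⁻¹ : Fˣ) : F) = 0 := Pool.Agent.Helper32.RDV.ordv_eq_zero v hq
  have ho0 : ordv v (x0 : F) = 0 := Pool.Agent.Helper32.RDV.ordv_eq_zero v hx0
  have ho₁ : ordv v (β₁ : F) = 0 := by
    rw [ordu_mul, ordu_inv, ho0] at hoq
    linarith
  have hkq : kap p ε v (β₁ * x0⁻¹) = 0 := by
    refine (a6 _ (by rw [hoq]; exact dvd_zero _)).2 ⟨1, ?_⟩
    rw [one_pow, mul_one, Units.val_mul]
    exact hv₁
  have hk₁ : kap p ε v β₁ = 1 := by
    have h6 : β₁ = β₁ * x0⁻¹ * x0 := (inv_mul_cancel_right _ _).symm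
    rw [h6, a4 _ _ (by rw [hoq]; exact dvd_zero _) (by rw [ho0]; exact dvd_zero _), hkq, hk0,
      zero_add]
  have hd₁ : (p : ℤ) ∣ ordv v (β₁ : F) := by rw [ho₁]; exact dvd_zero _
  refine ⟨brk p ε S xv β₁, ?_⟩
  intro β hβ hd
  have h6 := hzero (β * β₁ ^ (-kap p ε v β).val) (l1 _ _ hβ (locS_pow h3 hS hL₁ _)) (by
    rw [ordu_mul, ordu_pow]
    exact dvd_add hd (hd₁.mul_left _)) (by
    rw [a4 _ _ hd (by rw [ordu_pow]; exact hd₁.mul_left _), kap_pow h1 hS hv β₁ hd₁,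
      ZMod.natCast_zmod_val, hk₁, mul_one, add_neg_cancel])
  rw [b1, brk_pow h4 hS, ZMod.natCast_zmod_val] at h6
  linear_combination h6

theorem t_lin (h1 : K_BAS) (h2 : K_APP) (h3 : K_LOC) (h4 : K_BRK) (h5 : R_ONE) :
    Pool.Agent.Helper51.REC.T_LIN := by
  classical
  intro p _ F _ _ ε S hS
  obtain ⟨b1, b2, b3, -, b5⟩ := h4 p F ε S hS.prim hS.abp
  -- the elements `x_v`
  have hxv : ∀ v : HeightOneSpectrum (𝓞 F), ∃ x : Fˣ, ∀ W ∉ S,
      ordv W (x : F) = if W = v then 1 else 0 := by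
    intro v
    obtain ⟨x, hx⟩ := hS.prin (Finsupp.single v 1)
    refine ⟨x, fun W hW ↦ ?_⟩
    rw [hx W hW, Finsupp.single_apply]
    by_cases h : W = v
    · rw [if_pos h, if_pos h.symm]
    · rw [if_neg h, if_neg (Ne.symm h)]
  choose X hX using hxv
  have hc : ∀ v : HeightOneSpectrum (𝓞 F), ∃ c : ZMod p, v ∉ S → ∀ β : Fˣ, LocS p S β →
      (p : ℤ) ∣ ordv v (β : F) → brk p ε S (X v) β = c * kap p ε v β := by
    intro v
    by_cases hv : v ∈ S
    · exact ⟨0, fun h ↦ absurd hv h⟩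
    · obtain ⟨c, hc⟩ := one_prime h1 h2 h3 h4 h5 hS hv (xv := X v)
        (fun W hW hWv ↦ by rw [hX v W hW, if_neg hWv])
      exact ⟨c, fun _ ↦ hc⟩
  choose c hc using hc
  refine ⟨c, fun x β hβ hsep ↦ ?_⟩
  -- the bad primes of `x`
  set T : Finset (HeightOneSpectrum (𝓞 F)) := (b5 x).toFinset.filter (fun W ↦ W ∉ S) with hT
  have hmT : ∀ W, W ∈ T ↔ ¬ (p : ℤ) ∣ ordv W (x : F) ∧ W ∉ S := by
    intro W
    rw [hT, Finset.mem_filter, Set.Finite.mem_toFinset, Set.mem_ofPred_eq]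
  let N : HeightOneSpectrum (𝓞 F) → ℕ := fun v ↦ ((ordv v (x : F) : ℤ) : ZMod p).val
  have hN : ∀ v, ((N v : ℕ) : ZMod p) = ((ordv v (x : F) : ℤ) : ZMod p) := fun v ↦
    ZMod.natCast_zmod_val _
  -- powers
  have hpw : ∀ v ∉ S, (p : ℤ) ∣ ordv v (β : F) → ∀ n : ℕ,
      brk p ε S (X v ^ n) β = n * brk p ε S (X v) β := by
    intro v hv hd n
    induction n with
    | zero =>
      rw [pow_zero, Nat.cast_zero, zero_mul]
      have h6 := b3 1 1 β fun W hW ↦ Or.inr (by rw [ordu_one]; exact ⟨dvd_zero _, dvd_zero _⟩)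
      rw [mul_one] at h6
      linear_combination -h6
    | succ n ih =>
      rw [pow_succ, b3, ih]
      · push_cast
        ring
      · intro W hW
        by_cases hWv : W = v
        · left
          rw [hWv]
          exact hd
        · right
          rw [ordu_pow, hX v W hW, if_neg hWv, mul_zero]
          exact ⟨dvd_zero _, dvd_zero _⟩
  have hprod : ∀ T' : Finset (HeightOneSpectrum (𝓞 F)), (∀ v ∈ T', v ∉ S ∧ (p : ℤ) ∣ ordv v (β : F)) →
      (∀ W ∉ S, ordv W ((∏ v ∈ T', X v ^ N v : Fˣ) : F) = if W ∈ T' then (N W : ℤ) else 0) ∧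
      brk p ε S (∏ v ∈ T', X v ^ N v) β = ∑ v ∈ T', N v * brk p ε S (X v) β := by
    intro T'
    induction T' using Finset.induction_on with
    | empty =>
      intro _
      refine ⟨fun W hW ↦ ?_, ?_⟩
      · rw [Finset.prod_empty, ordu_one, if_neg (Finset.notMem_empty W)]
      · rw [Finset.prod_empty, Finset.sum_empty]
        have h6 := b3 1 1 β fun W hW ↦ Or.inr (by rw [ordu_one]; exact ⟨dvd_zero _, dvd_zero _⟩)
        rw [mul_one] at h6
        linear_combination -h6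
    | insert v T' hvT ih =>
      intro hT'
      obtain ⟨i1, i2⟩ := ih fun v hv ↦ hT' v (Finset.mem_insert_of_mem hv)
      obtain ⟨hvS, hvd⟩ := hT' v (Finset.mem_insert_self v T')
      refine ⟨fun W hW ↦ ?_, ?_⟩
      · rw [Finset.prod_insert hvT, ordu_mul, ordu_pow, i1 W hW, hX v W hW]
        by_cases hWv : W = v
        · subst hWv
          rw [if_pos rfl, if_neg hvT, if_pos (Finset.mem_insert_self W T')]
          ring
        · rw [if_neg hWv, mul_zero, zero_add]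
          by_cases hWT : W ∈ T'
          · rw [if_pos hWT, if_pos (Finset.mem_insert_of_mem hWT)]
          · rw [if_neg hWT, if_neg (by
              rw [Finset.mem_insert]
              rintro (h | h)
              · exact hWv h
              · exact hWT h)]
      · rw [Finset.prod_insert hvT, Finset.sum_insert hvT, b3, i2, hpw v hvS hvd]
        intro W hW
        by_cases hWT : W ∈ insert v T'
        · exact Or.inl (hT' W hWT).2
        · right
          have hWv : W ≠ v := fun h ↦ hWT (by rw [h]; exact Finset.mem_insert_self v T')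
          have hWT' : W ∉ T' := fun h ↦ hWT (Finset.mem_insert_of_mem h)
          rw [i1 W hW, if_neg hWT', ordu_pow, hX v W hW, if_neg hWv, mul_zero]
          exact ⟨dvd_zero _, dvd_zero _⟩
  have hTd : ∀ v ∈ T, v ∉ S ∧ (p : ℤ) ∣ ordv v (β : F) := by
    intro v hv
    obtain ⟨h6, h7⟩ := (hmT v).1 hv
    exact ⟨h7, (hsep v h7).resolve_left h6⟩
  obtain ⟨i1, i2⟩ := hprod T hTd
  set π : Fˣ := ∏ v ∈ T, X v ^ N v with hπ
  -- the rest of `x`
  have hrest : ∀ W ∉ S, (p : ℤ) ∣ ordv W ((x * π⁻¹ : Fˣ) : F) := by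
    intro W hW
    rw [ordu_mul, ordu_inv, i1 W hW]
    by_cases hWT : W ∈ T
    · rw [if_pos hWT]
      rw [← ZMod.intCast_zmod_eq_zero_iff_dvd]
      push_cast
      rw [hN]
      ring
    · rw [if_neg hWT, neg_zero, add_zero]
      by_contra h6
      exact hWT ((hmT W).2 ⟨h6, hW⟩)
  have hfin := Pool.Agent.Helper33.REC.finite_ordv (x * π⁻¹)
  obtain ⟨e, he⟩ := hS.prin (Finsupp.onFinset hfin.toFinset
    (fun W ↦ ordv W ((x * π⁻¹ : Fˣ) : F) / p) (by
      intro W hW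
      rw [Set.Finite.mem_toFinset]
      intro h6
      apply hW
      rw [h6, Int.zero_ediv]))
  have hoe : ∀ W ∉ S, ordv W (((x * π⁻¹) * (e ^ p)⁻¹ : Fˣ) : F) = 0 := by
    intro W hW
    rw [ordu_mul (W := W) (x * π⁻¹), ordu_inv, ordu_pow, he W hW]
    show _ + -((p : ℤ) * (ordv W ((x * π⁻¹ : Fˣ) : F) / p)) = 0
    rw [Int.mul_ediv_cancel' (hrest W hW)]
    ring
  have hu : (x * π⁻¹) * (e ^ p)⁻¹ ∈ S.unit F := by
    intro W hW
    exact Pool.Agent.Helper32.RDV.val_one_of_ordv W (Units.ne_zero _) (hoe W hW)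
  have hbu := h5 p F ε S hS _ hu β hβ
  have hbe : brk p ε S (e ^ p) β = 0 := by
    unfold brk
    refine finsum_eq_zero_of_forall_eq_zero fun W ↦ ?_
    by_cases hW : W ∈ S
    · rw [if_pos hW]
    · rw [if_neg hW]
      obtain ⟨-, -, -, -, a5, -, -⟩ := h1 p F ε hS.prim W (val_p hS hW)
      rw [a5, mul_zero]
  have hbr : brk p ε S (x * π⁻¹) β = 0 := by
    have h6 : x * π⁻¹ = (x * π⁻¹) * (e ^ p)⁻¹ * e ^ p := (inv_mul_cancel_right _ _).symm
    rw [h6, b3, hbu, hbe, add_zero]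
    intro W hW
    right
    rw [hoe W hW, ordu_pow]
    exact ⟨dvd_zero _, dvd_mul_right _ _⟩
  have hbx : brk p ε S x β = ∑ v ∈ T, N v * brk p ε S (X v) β := by
    have h6 : x = π * (x * π⁻¹) := by rw [mul_comm x, mul_inv_cancel_left]
    conv_lhs => rw [h6]
    rw [b3, hbr, i2, add_zero]
    intro W hW
    by_cases hWT : W ∈ T
    · exact Or.inl (hTd W hWT).2
    · right
      rw [i1 W hW, if_neg hWT]
      exact ⟨dvd_zero _, hrest W hW⟩
  rw [hbx]
  unfold brw
  rw [finsum_eq_sum_of_support_subset (s := T)]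
  · refine Finset.sum_congr rfl fun v hv ↦ ?_
    rw [if_neg (hTd v hv).1, hN, hc v (hTd v hv).1 β hβ (hTd v hv).2]
    ring
  · intro W hW
    rw [Finset.mem_coe, hmT]
    rw [Function.mem_support] at hW
    by_cases hWS : W ∈ S
    · rw [if_pos hWS] at hW
      exact absurd rfl hW
    · refine ⟨fun hd ↦ hW ?_, hWS⟩
      rw [if_neg hWS, (ZMod.intCast_zmod_eq_zero_iff_dvd _ p).2 hd, zero_mul, mul_zero]

end tlin

end Pool.Agent.Helper32.REC
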